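import Pool.Agent.LibLac65.Iter

/-!
# The conclusion in `Fin d → ℝ`
-/

set_option autoImplicit false

open MeasureTheory MeasureTheory.Measure Metric Module Set Filter
open scoped ENNReal Topology

namespace Pool.Agent.LibLac65

/-- a set of positive measure in a Euclidean space: some 1-Lipschitz map sends it onto a superset of a
ball -/
theorem exists_ball {V : Type*} [NormedAddCommGroup V] [InnerProductSpace ℝ V] [FiniteDimensional ℝ V]
    [MeasurableSpace V] [BorelSpace V] (μ : Measure V) [μ.IsAddHaarMeasure] (hd : 0 < finrank ℝ V)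
    {E : Set V} (hE : MeasurableSet E) (hpos : 0 < μ E) :
    ∃ (T : V → V) (x₀ : V) (r : ℝ), 0 < r ∧ LipschitzWith 1 T ∧ closedBall x₀ r ⊆ T '' E := by
  obtain ⟨c, hc, hmain⟩ := main_V μ hd
  have hb := bb_pos μ
  obtain ⟨K, hKE, hK, hK0⟩ := hE.exists_lt_isCompact hpos
  have hne : μ.restrict K ≠ 0 := by
    rw [ne_eq, Measure.restrict_eq_zero]
    exact hK0.ne'
  have : (ae (μ.restrict K)).NeBot := ae_neBot.2 hne
  obtain ⟨x₀, hx₀⟩ := (Besicovitch.ae_tendsto_measure_inter_div μ K).exists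
  set η : ℝ := c / (bb μ * 2 ^ finrank ℝ V) with hη
  have hη0 : 0 < η := by positivity
  have h1 : Tendsto (fun r => (μ (K ∩ closedBall x₀ r) / μ (closedBall x₀ r)).toReal) (𝓝[>] 0) (𝓝 1) := by
    have := (ENNReal.tendsto_toReal ENNReal.one_ne_top).comp hx₀
    rwa [ENNReal.toReal_one] at this
  have h2 : ∀ᶠ r in 𝓝[>] (0 : ℝ), 1 - η < (μ (K ∩ closedBall x₀ r) / μ (closedBall x₀ r)).toReal :=
    h1.eventually_const_lt (by linarith)
  have h3 : ∀ᶠ r in 𝓝[>] (0 : ℝ), 0 < r := eventually_mem_nhdsWithin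
  obtain ⟨r, hr1, hr0⟩ := (h2.and h3).exists
  have hBpos : 0 < μ.real (closedBall x₀ r) := by
    rw [closedBall_real μ x₀ hr0.le]
    positivity
  have hBf : μ (closedBall x₀ r) ≠ ∞ := (isCompact_closedBall _ _).measure_lt_top.ne
  rw [ENNReal.toReal_div] at hr1
  change 1 - η < μ.real (K ∩ closedBall x₀ r) / μ.real (closedBall x₀ r) at hr1
  rw [lt_div_iff₀ hBpos] at hr1
  have hsplit := measureReal_sdiff_add_inter (μ := μ) (s := closedBall x₀ r) hK.measurableSet hBf
  rw [inter_comm] at hsplit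
  have hDle : μ.real (closedBall x₀ r \ K) ≤ c * (r / 2) ^ finrank ℝ V := by
    have h4 : μ.real (closedBall x₀ r \ K) ≤ η * μ.real (closedBall x₀ r) := by linarith
    refine h4.trans (le_of_eq ?_)
    rw [closedBall_real μ x₀ hr0.le, hη, div_pow]
    field_simp
  have hDf : μ (closedBall x₀ r \ K) ≠ ∞ :=
    ne_of_lt (lt_of_le_of_lt (measure_mono sdiff_subset) hBf.lt_top)
  obtain ⟨T, hT1, _, hT2⟩ := hmain K (closedBall x₀ r \ K) x₀ (r / 2) (half_pos hr0) hK
    (measurableSet_closedBall.diff hK.measurableSet) hDf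
    (by
      rw [mul_div_cancel₀ r (two_ne_zero), union_sdiff_self]
      exact subset_union_right) hDle
  exact ⟨T, x₀, r / 2, half_pos hr0, hT1, hT2.trans (image_mono hKE)⟩

theorem final (d : ℕ) (hd : 0 < d) (E : Set (Fin d → ℝ)) (hE : MeasurableSet E) (hpos : 0 < volume E) :
    ∃ f : (Fin d → ℝ) → (Fin d → ℝ), ∃ K : NNReal, LipschitzWith K f ∧
      Set.range f ⊆ Set.Icc (0 : Fin d → ℝ) 1 ∧ f '' E = Set.Icc (0 : Fin d → ℝ) 1 := by
  set e : EuclideanSpace ℝ (Fin d) ≃L[ℝ] (Fin d → ℝ) := EuclideanSpace.equiv (Fin d) ℝ with he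
  have hE' : MeasurableSet (e ⁻¹' E) := e.continuous.measurable hE
  have hpos' : 0 < (volume : Measure (EuclideanSpace ℝ (Fin d))) (e ⁻¹' E) := by
    have := (PiLp.volume_preserving_ofLp (Fin d)).measure_preimage hE.nullMeasurableSet
    have h2 : (volume : Measure (EuclideanSpace ℝ (Fin d))) (e ⁻¹' E) = volume E := this
    rw [h2]; exact hpos
  obtain ⟨T, x₀, r, hr, hT, hball⟩ := exists_ball (volume : Measure (EuclideanSpace ℝ (Fin d)))
    (by rw [finrank_euclideanSpace, Fintype.card_fin]; exact hd) hE' hpos'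
  -- a cube inside the ball
  obtain ⟨ρ, hρ, hcube⟩ : ∃ ρ : ℝ, 0 < ρ ∧ ∀ z, dist z (e x₀) ≤ ρ → e.symm z ∈ closedBall x₀ r := by
    have h1 : Tendsto e.symm (𝓝 (e x₀)) (𝓝 x₀) := by
      have := e.symm.continuous.tendsto (e x₀)
      rwa [e.symm_apply_apply] at this
    have h2 := h1 (closedBall_mem_nhds x₀ hr)
    obtain ⟨ρ, hρ, h3⟩ := Metric.mem_nhds_iff.1 (mem_map.1 h2)
    refine ⟨ρ / 2, half_pos hρ, fun z hz => ?_⟩
    exact h3 (mem_ball.2 (lt_of_le_of_lt hz (half_lt_self hρ)))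
  set G : (Fin d → ℝ) → (Fin d → ℝ) := fun z => e (T (e.symm z)) with hG
  obtain ⟨KG, hGL⟩ : ∃ KG : NNReal, LipschitzWith KG G :=
    ⟨_, e.lipschitz.comp (hT.comp e.symm.lipschitz)⟩
  have hclamp : ∀ a b : ℝ, |max 0 (min 1 a) - max 0 (min 1 b)| ≤ |a - b| := by
    intro a b
    have h1 : LipschitzWith 1 (fun t : ℝ => max 0 (min 1 t)) :=
      (LipschitzWith.id.const_min 1).const_max 0
    have := h1.dist_le_mul a b
    rwa [NNReal.coe_one, one_mul] at this
  set f : (Fin d → ℝ) → (Fin d → ℝ) :=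
    fun z j => max 0 (min 1 ((G z j - e x₀ j + ρ) / (2 * ρ))) with hf
  have hrange : ∀ z, f z ∈ Set.Icc (0 : Fin d → ℝ) 1 := by
    intro z
    refine ⟨fun j => le_max_left _ _, fun j => ?_⟩
    exact max_le zero_le_one (min_le_left _ _)
  refine ⟨f, Real.toNNReal ((2 * ρ)⁻¹) * KG, ?_, ?_, ?_⟩
  · refine LipschitzWith.of_dist_le_mul fun z w => ?_
    rw [NNReal.coe_mul, Real.coe_toNNReal _ (by positivity)]
    refine (dist_pi_le_iff (by positivity)).2 fun j => ?_
    rw [Real.dist_eq]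
    refine (hclamp _ _).trans ?_
    have h1 : (G z j - e x₀ j + ρ) / (2 * ρ) - (G w j - e x₀ j + ρ) / (2 * ρ) =
      (2 * ρ)⁻¹ * (G z j - G w j) := by
      field_simp
      ring
    rw [h1, abs_mul, abs_of_pos (show 0 < (2 * ρ)⁻¹ by positivity), mul_assoc]
    refine mul_le_mul_of_nonneg_left ?_ (by positivity)
    rw [← Real.dist_eq]
    exact (dist_le_pi_dist _ _ j).trans (hGL.dist_le_mul z w)
  · rintro _ ⟨z, rfl⟩
    exact hrange z
  · apply subset_antisymm
    · rintro _ ⟨z, _, rfl⟩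
      exact hrange z
    · intro u hu
      set z : Fin d → ℝ := fun j => e x₀ j + (2 * ρ * u j - ρ) with hz
      have hzd : dist z (e x₀) ≤ ρ := by
        refine (dist_pi_le_iff hρ.le).2 fun j => ?_
        rw [Real.dist_eq, hz, abs_le]
        have h0 : 0 ≤ u j := hu.1 j
        have h1 : u j ≤ 1 := hu.2 j
        constructor <;> nlinarith
      obtain ⟨k, hkE, hk⟩ := hball (hcube z hzd)
      refine ⟨e k, hkE, ?_⟩
      funext j
      have h0 : 0 ≤ u j := hu.1 j
      have h1 : u j ≤ 1 := hu.2 j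
      have h2 : G (e k) = z := by
        simp only [hG]
        rw [e.symm_apply_apply, hk, e.apply_symm_apply]
      simp only [hf]
      rw [h2]
      have h3 : (z j - e x₀ j + ρ) / (2 * ρ) = u j := by
        simp only [hz]
        field_simp
        ring
      rw [h3, min_eq_right h1, max_eq_right h0]

end Pool.Agent.LibLac65
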