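import Pool.Agent.LibLac65.Step

/-!
# Iteration of the one-step theorem
-/

set_option autoImplicit false

open MeasureTheory MeasureTheory.Measure Metric Module Set Filter
open scoped ENNReal Topology

namespace Pool.Agent.LibLac65

variable {V : Type*} [NormedAddCommGroup V] [InnerProductSpace ℝ V] [FiniteDimensional ℝ V]
  [MeasurableSpace V] [BorelSpace V]

variable (μ : Measure V) [μ.IsAddHaarMeasure]

/-- data after `n` steps: the map and a measurable set that contains the image of `D` -/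
structure Stage (D : Set V) (θ M m : ℝ) (n : ℕ) (p : (V → V) × Set V) : Prop where
  lip : LipschitzWith 1 p.1
  surj : Function.Surjective p.1
  disp : ∀ x, dist (p.1 x) x ≤ M * (1 - θ ^ n)
  meas : MeasurableSet p.2
  fin : μ p.2 ≠ ∞
  sub : p.1 '' D ⊆ p.2
  small : μ.real p.2 ≤ (θ ^ n) ^ finrank ℝ V * m

theorem Stage.step (hd : 0 < finrank ℝ V) {D : Set V} {θ M m : ℝ} (hθ0 : 0 < θ) (hθ1 : θ < 1)
    (hθ : 1 - (1 / 8) ^ finrank ℝ V / 8 ≤ θ ^ finrank ℝ V) (hM : 0 ≤ M)
    (hMm : 2 ^ (finrank ℝ V + 1) * m ≤ bb μ * ((1 - θ) * M) ^ finrank ℝ V)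
    {n : ℕ} {p : (V → V) × Set V} (h : Stage μ D θ M m n p) :
    ∃ p' : (V → V) × Set V, Stage μ D θ M m (n + 1) p' ∧
      ∀ x, dist (p.1 x) (p'.1 x) ≤ (1 - θ) * M * θ ^ n := by
  have hb := bb_pos μ
  have h1θ : 0 ≤ 1 - θ := by linarith
  have hθn : 0 < θ ^ n := pow_pos hθ0 n
  obtain ⟨T, hT1, hT2, hT3, hT4⟩ := one_step μ hd h.meas h.fin (R := (1 - θ) * M * θ ^ n) (by positivity) (by
    rw [mul_pow _ (θ ^ n)]
    have h1 := mul_le_mul_of_nonneg_left h.small (show (0 : ℝ) ≤ 2 ^ (finrank ℝ V + 1) by positivity)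
    have h2 := mul_le_mul_of_nonneg_right hMm (show (0 : ℝ) ≤ (θ ^ n) ^ finrank ℝ V by positivity)
    nlinarith)
  refine ⟨(T ∘ p.1, toMeasurable μ (T '' p.2)), ?_, ?_⟩
  · refine ⟨?_, hT2.comp h.surj, ?_, measurableSet_toMeasurable _ _, ?_, ?_, ?_⟩
    · have := hT1.comp h.lip
      rwa [one_mul] at this
    · intro x
      have h1 := dist_triangle (T (p.1 x)) (p.1 x) x
      have h2 := hT3 (p.1 x)
      have h3 := h.disp x
      simp only [Function.comp]
      have h4 : M * (1 - θ ^ (n + 1)) = (1 - θ) * M * θ ^ n + M * (1 - θ ^ n) := by ring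
      linarith
    · rw [measure_toMeasurable]
      exact ne_of_lt (lt_of_le_of_lt (measure_image_le μ hT1 _) h.fin.lt_top)
    · refine subset_trans ?_ (subset_toMeasurable _ _)
      simp only
      rw [image_comp]
      exact image_mono h.sub
    · have h1 : μ.real (toMeasurable μ (T '' p.2)) = μ.real (T '' p.2) := by
        rw [Measure.real, measure_toMeasurable]; rfl
      simp only
      rw [h1, pow_succ, mul_pow]
      have h2 := mul_le_mul_of_nonneg_right hθ (measureReal_nonneg (μ := μ) (s := p.2))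
      have h3 := mul_le_mul_of_nonneg_left h.small (show (0 : ℝ) ≤ θ ^ finrank ℝ V by positivity)
      nlinarith
  · intro x
    rw [dist_comm]
    exact hT3 (p.1 x)

/-- the sequence of stages -/
theorem exists_seq (hd : 0 < finrank ℝ V) {D : Set V} (hD : MeasurableSet D) (hDf : μ D ≠ ∞) {θ M : ℝ}
    (hθ0 : 0 < θ) (hθ1 : θ < 1)
    (hθ : 1 - (1 / 8) ^ finrank ℝ V / 8 ≤ θ ^ finrank ℝ V) (hM : 0 ≤ M)
    (hMm : 2 ^ (finrank ℝ V + 1) * μ.real D ≤ bb μ * ((1 - θ) * M) ^ finrank ℝ V) :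
    ∃ p : ℕ → (V → V) × Set V, ∀ n, Stage μ D θ M (μ.real D) n (p n) ∧
      ∀ x, dist ((p n).1 x) ((p (n + 1)).1 x) ≤ (1 - θ) * M * θ ^ n := by
  have hstep : ∀ (n : ℕ) (p : (V → V) × Set V), ∃ p' : (V → V) × Set V, Stage μ D θ M (μ.real D) n p →
      (Stage μ D θ M (μ.real D) (n + 1) p' ∧ ∀ x, dist (p.1 x) (p'.1 x) ≤ (1 - θ) * M * θ ^ n) := by
    intro n p
    by_cases h : Stage μ D θ M (μ.real D) n p
    · obtain ⟨p', h'⟩ := h.step μ hd hθ0 hθ1 hθ hM hMm
      exact ⟨p', fun _ => h'⟩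
    · exact ⟨p, fun h' => absurd h' h⟩
  choose F hF using hstep
  set p : ℕ → (V → V) × Set V := fun n => Nat.rec (id, D) (fun n q => F n q) n with hp
  have h0 : Stage μ D θ M (μ.real D) 0 (p 0) := by
    refine ⟨LipschitzWith.id, Function.surjective_id, fun x => ?_, hD, hDf, ?_, ?_⟩
    · simp [hp]
    · simp [hp]
    · simp [hp]
  have hst : ∀ n, Stage μ D θ M (μ.real D) n (p n) := by
    intro n
    induction n with
    | zero => exact h0
    | succ n ih => exact (hF n (p n) ih).1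
  exact ⟨p, fun n => ⟨hst n, (hF n (p n) (hst n)).2⟩⟩

/-- **Main theorem in `V`.**  There is `c > 0` such that if a compact set `K` fills a ball of radius
`2 r` up to a set of measure at most `c r ^ d` then some 1-Lipschitz map sends `K` onto a set that
contains the concentric ball of radius `r`. -/
theorem main_V (hd : 0 < finrank ℝ V) : ∃ c : ℝ, 0 < c ∧ ∀ (K D : Set V) (y₀ : V) (r : ℝ), 0 < r →
    IsCompact K → MeasurableSet D → μ D ≠ ∞ → closedBall y₀ (2 * r) ⊆ K ∪ D →
    μ.real D ≤ c * r ^ finrank ℝ V →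
    ∃ T : V → V, LipschitzWith 1 T ∧ (∀ x, dist (T x) x ≤ r) ∧ closedBall y₀ r ⊆ T '' K := by
  have hb := bb_pos μ
  set d := finrank ℝ V with hdd
  set q : ℝ := 1 - (1 / 8) ^ d / 8 with hq
  have h8 : (1 / 8 : ℝ) ^ d ≤ 1 := pow_le_one₀ (by norm_num) (by norm_num)
  have h80 : 0 < (1 / 8 : ℝ) ^ d := by positivity
  have hq0 : 0 < q := by rw [hq]; linarith
  have hq1 : q < 1 := by rw [hq]; linarith
  set θ : ℝ := q ^ ((d : ℝ)⁻¹) with hθdef
  have hθ0 : 0 < θ := Real.rpow_pos_of_pos hq0 _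
  have hθ1 : θ < 1 := Real.rpow_lt_one hq0.le hq1 (by positivity)
  have hθ : θ ^ d = q := Real.rpow_inv_natCast_pow hq0.le hd.ne'
  refine ⟨bb μ * ((1 - θ) / 2) ^ d / 2 ^ (d + 1), ?_, ?_⟩
  · have : 0 < 1 - θ := by linarith
    positivity
  intro K D y₀ r hr hK hD hDf hcov hDr
  set M : ℝ := r / 2 with hM
  have hM0 : 0 < M := half_pos hr
  have hMm : 2 ^ (d + 1) * μ.real D ≤ bb μ * ((1 - θ) * M) ^ d := by
    have h1 : (1 - θ) * M = ((1 - θ) / 2) * r := by rw [hM]; ring
    rw [h1, mul_pow]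
    have h2 := mul_le_mul_of_nonneg_left hDr (show (0 : ℝ) ≤ 2 ^ (d + 1) by positivity)
    refine h2.trans (le_of_eq ?_)
    field_simp
  obtain ⟨p, hp⟩ := exists_seq μ hd hD hDf hθ0 hθ1 hθ.ge hM0.le hMm
  set P : ℕ → V → V := fun n => (p n).1 with hPdef
  have hdist : ∀ x n, dist (P n x) (P (n + 1) x) ≤ (1 - θ) * M * θ ^ n := fun x n => (hp n).2 x
  have hcauchy : ∀ x, CauchySeq fun n => P n x := fun x =>
    cauchySeq_of_le_geometric θ ((1 - θ) * M) hθ1 (hdist x)
  choose T hT using fun x => cauchySeq_tendsto_of_complete (hcauchy x)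
  have hTP : ∀ x n, dist (P n x) (T x) ≤ M * θ ^ n := by
    intro x n
    have h1 := dist_le_of_le_geometric_of_tendsto θ ((1 - θ) * M) hθ1 (hdist x) (hT x) n
    have h2 : (1 - θ) * M * θ ^ n / (1 - θ) = M * θ ^ n := by
      have : (1 - θ) ≠ 0 := by linarith
      field_simp
    rwa [h2] at h1
  have hPdisp : ∀ n x, dist (P n x) x ≤ M := by
    intro n x
    have h1 := (hp n).1.disp x
    have h2 : M * (1 - θ ^ n) ≤ M * 1 := mul_le_mul_of_nonneg_left (by linarith [pow_pos hθ0 n]) hM0.le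
    exact (h1.trans h2).trans (mul_one M).le
  have hTlip : LipschitzWith 1 T := by
    refine LipschitzWith.of_dist_le_mul fun x y => ?_
    rw [NNReal.coe_one, one_mul]
    refine le_of_tendsto' ((hT x).dist (hT y)) fun n => ?_
    have := (hp n).1.lip.dist_le_mul x y
    rwa [NNReal.coe_one, one_mul] at this
  refine ⟨T, hTlip, fun x => ?_, ?_⟩
  · have h1 : dist (T x) x ≤ M :=
      le_of_tendsto' ((hT x).dist (tendsto_const_nhds (x := x))) fun n => hPdisp n x
    linarith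
  intro y hy
  have hclosed : IsClosed (T '' K) := (hK.image hTlip.continuous).isClosed
  rw [← hclosed.closure_eq, Metric.mem_closure_iff]
  intro ε hε
  set δ : ℝ := min (ε / 2) (r / 2) with hδ
  have hδ0 : 0 < δ := by positivity
  have hθt : Tendsto (fun n => θ ^ n) atTop (𝓝 0) := tendsto_pow_atTop_nhds_zero_of_lt_one hθ0.le hθ1
  have ev1 : ∀ᶠ n in atTop, M * θ ^ n < ε / 2 := by
    have : Tendsto (fun n => M * θ ^ n) atTop (𝓝 0) := by
      simpa using hθt.const_mul M
    exact this.eventually_lt_const (half_pos hε)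
  have ev2 : ∀ᶠ n in atTop, (θ ^ n) ^ d * μ.real D < bb μ * δ ^ d := by
    have : Tendsto (fun n => (θ ^ n) ^ d * μ.real D) atTop (𝓝 0) := by
      have h1 := (hθt.pow d).mul_const (μ.real D)
      rwa [zero_pow hd.ne', zero_mul] at h1
    exact this.eventually_lt_const (by positivity)
  obtain ⟨n, hn1, hn2⟩ := (ev1.and ev2).exists
  -- a point of the ball outside the image of `D`
  obtain ⟨y', hy', hyD⟩ : ∃ y' ∈ ball y δ, y' ∉ (p n).2 := by
    by_contra hcon
    push Not at hcon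
    have h1 : μ.real (ball y δ) ≤ μ.real (p n).2 := measureReal_mono hcon (hp n).1.fin
    rw [ball_real μ y hδ0] at h1
    have h2 := (hp n).1.small
    linarith
  obtain ⟨x, hx⟩ := (hp n).1.surj y'
  have hxball : x ∈ closedBall y₀ (2 * r) := by
    rw [mem_closedBall] at hy ⊢
    rw [mem_ball] at hy'
    have h1 := hPdisp n x
    have h2 : P n x = y' := hx
    rw [h2, dist_comm] at h1
    have h3 := dist_triangle x y' y₀
    have h4 := dist_triangle y' y y₀
    have h5 : δ ≤ r / 2 := min_le_right _ _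
    linarith
  have hxK : x ∈ K := by
    rcases hcov hxball with h | h
    · exact h
    · exact absurd ((hp n).1.sub ⟨x, h, hx⟩) hyD
  refine ⟨T x, ⟨x, hxK, rfl⟩, ?_⟩
  rw [mem_ball] at hy'
  have h1 := hTP x n
  have h2 : P n x = y' := hx
  rw [h2] at h1
  have h3 := dist_triangle y y' (T x)
  rw [dist_comm y y'] at h3
  have h5 : δ ≤ ε / 2 := min_le_left _ _
  linarith

end Pool.Agent.LibLac65
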