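import Pool.Agent.LibLac65.Prox

/-!
# One step: a 1-Lipschitz surjection of small displacement that shrinks the measure of a given set
-/

set_option autoImplicit false

open MeasureTheory MeasureTheory.Measure Metric Module Set
open scoped ENNReal

namespace Pool.Agent.LibLac65

variable {V : Type*} [NormedAddCommGroup V] [InnerProductSpace ℝ V] [FiniteDimensional ℝ V]
  [MeasurableSpace V] [BorelSpace V]

variable (μ : Measure V) [μ.IsAddHaarMeasure]

/-- 1-Lipschitz maps do not increase Haar measure -/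
theorem measure_image_le {T : V → V} (hT : LipschitzWith 1 T) (s : Set V) : μ (T '' s) ≤ μ s := by
  have h := isAddLeftInvariant_eq_smul μ (μH[finrank ℝ V] : Measure V)
  rw [h, Measure.smul_apply, Measure.smul_apply]
  have h1 := hT.hausdorffMeasure_image_le (Nat.cast_nonneg (finrank ℝ V)) s
  rw [ENNReal.coe_one, ENNReal.one_rpow, one_mul] at h1
  gcongr

theorem measureReal_image_le {T : V → V} (hT : LipschitzWith 1 T) {s : Set V} (hs : μ s ≠ ∞) :
    μ.real (T '' s) ≤ μ.real s :=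
  ENNReal.toReal_mono hs (measure_image_le μ hT s)

/-- the volume of the unit ball -/
noncomputable def bb : ℝ := μ.real (ball 0 1)

omit [BorelSpace V] in
theorem bb_pos : 0 < bb μ :=
  ENNReal.toReal_pos (measure_ball_pos μ 0 one_pos).ne' measure_ball_lt_top.ne

theorem ball_real (x : V) {r : ℝ} (hr : 0 < r) : μ.real (ball x r) = bb μ * r ^ finrank ℝ V := by
  rw [Measure.real, addHaar_ball_of_pos μ x hr, ENNReal.toReal_mul, ENNReal.toReal_ofReal (by positivity),
    mul_comm]
  rfl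

theorem closedBall_real (x : V) {r : ℝ} (hr : 0 ≤ r) : μ.real (closedBall x r) = bb μ * r ^ finrank ℝ V := by
  rw [Measure.real, addHaar_closedBall μ x hr, ENNReal.toReal_mul, ENNReal.toReal_ofReal (by positivity),
    mul_comm]
  rfl

/-- `s`-separated finite sets -/
def Sep (s : ℝ) (S : Finset V) : Prop := ∀ x ∈ S, ∀ y ∈ S, x ≠ y → s ≤ dist x y

omit [InnerProductSpace ℝ V] [FiniteDimensional ℝ V] [MeasurableSpace V] [BorelSpace V] in
theorem Sep.disjoint {s : ℝ} {S : Finset V} (hS : Sep s S) :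
    (S : Set V).PairwiseDisjoint fun x => ball x (s / 2) := by
  intro x hx y hy hxy
  exact ball_disjoint_ball (by linarith [hS x hx y hy hxy])

theorem sep_card_le {s : ℝ} (hs : 0 < s) {S : Finset V} (hS : Sep s S) {O : Set V} (hO : μ O ≠ ∞)
    (hSO : ∀ x ∈ S, ball x (s / 2) ⊆ O) : S.card * (bb μ * (s / 2) ^ finrank ℝ V) ≤ μ.real O := by
  have h1 : μ.real (⋃ x ∈ S, ball x (s / 2)) = ∑ x ∈ S, μ.real (ball x (s / 2)) :=
    measureReal_biUnion_finset hS.disjoint (fun _ _ => measurableSet_ball) (fun _ _ => measure_ball_lt_top.ne)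
  have h2 : ∑ x ∈ S, μ.real (ball x (s / 2)) = S.card * (bb μ * (s / 2) ^ finrank ℝ V) := by
    rw [Finset.sum_congr rfl fun x _ => ball_real μ x (half_pos hs), Finset.sum_const, nsmul_eq_mul]
  rw [← h2, ← h1]
  exact measureReal_mono (iUnion₂_subset hSO) hO

theorem exists_max_sep {s : ℝ} (hs : 0 < s) {K O : Set V} (hO : μ O ≠ ∞)
    (hKO : ∀ x ∈ K, ball x (s / 2) ⊆ O) :
    ∃ S : Finset V, (S : Set V) ⊆ K ∧ Sep s S ∧ ∀ x ∈ K, ∃ y ∈ S, dist x y < s := by
  classical
  set P : Set ℕ := {n | ∃ S : Finset V, (S : Set V) ⊆ K ∧ Sep s S ∧ S.card = n} with hP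
  have hPne : P.Nonempty := ⟨0, ∅, by simp, fun x hx => absurd hx (Finset.notMem_empty x), rfl⟩
  have hc : 0 < bb μ * (s / 2) ^ finrank ℝ V := mul_pos (bb_pos μ) (by positivity)
  have hPb : BddAbove P := by
    refine ⟨⌊μ.real O / (bb μ * (s / 2) ^ finrank ℝ V)⌋₊, ?_⟩
    rintro n ⟨S, hSK, hS, rfl⟩
    apply Nat.le_floor
    rw [le_div_iff₀ hc]
    exact sep_card_le μ hs hS hO fun x hx => hKO x (hSK hx)
  obtain ⟨S, hSK, hS, hcard⟩ := Nat.sSup_mem hPne hPb
  refine ⟨S, hSK, hS, fun x hx => ?_⟩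
  by_contra hcon
  push Not at hcon
  have hxS : x ∉ S := fun h => by
    have := hcon x h
    rw [dist_self] at this
    linarith
  have hmem : (insert x S).card ∈ P := by
    refine ⟨insert x S, ?_, ?_, rfl⟩
    · intro y hy
      rcases Finset.mem_insert.1 (Finset.mem_coe.1 hy) with rfl | hy
      · exact hx
      · exact hSK hy
    · intro y hy z hz hyz
      rcases Finset.mem_insert.1 hy with h1 | h1 <;> rcases Finset.mem_insert.1 hz with h2 | h2
      · exact absurd (h1.trans h2.symm) hyz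
      · rw [h1]; exact hcon z h2
      · rw [h2, dist_comm]; exact hcon y h1
      · exact hS y h1 z h2 hyz
  have h1 := le_csSup hPb hmem
  rw [Finset.card_insert_of_notMem hxS, ← hcard] at h1
  omega

theorem le_card {s : ℝ} (hs : 0 < s) {K : Set V} {S : Finset V} (hcov : ∀ x ∈ K, ∃ y ∈ S, dist x y < s) :
    μ.real K ≤ S.card * (bb μ * s ^ finrank ℝ V) := by
  have h1 : K ⊆ ⋃ y ∈ S, ball y s := by
    intro x hx
    obtain ⟨y, hy, hxy⟩ := hcov x hx
    exact mem_iUnion₂.2 ⟨y, hy, hxy⟩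
  have hfin : μ (⋃ y ∈ S, ball y s) ≠ ∞ := by
    refine ne_of_lt (lt_of_le_of_lt (measure_biUnion_finset_le _ _) ?_)
    exact ENNReal.sum_lt_top.2 fun _ _ => measure_ball_lt_top
  calc μ.real K ≤ μ.real (⋃ y ∈ S, ball y s) := measureReal_mono h1 hfin
    _ ≤ ∑ y ∈ S, μ.real (ball y s) := measureReal_biUnion_finset_le _ _
    _ = S.card * (bb μ * s ^ finrank ℝ V) := by
        rw [Finset.sum_congr rfl fun x _ => ball_real μ x hs, Finset.sum_const, nsmul_eq_mul]

/-- selection of good centres -/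
theorem exists_good {D : Set V} (hD : MeasurableSet D) (hDf : μ D ≠ ∞) (hD0 : 0 < μ.real D) {τ : ℝ}
    (hτ : 0 < τ) :
    ∃ h : ℝ, 0 < h ∧ ∃ A : Finset V, Sep h A ∧
      (∀ a ∈ A, μ.real (ball a (h / 2) \ D) ≤ τ * h ^ finrank ℝ V) ∧
      μ.real D ≤ 4 * bb μ * (A.card * h ^ finrank ℝ V) ∧
      bb μ * (A.card * h ^ finrank ℝ V) ≤ 2 ^ (finrank ℝ V + 1) * μ.real D := by
  classical
  set d := finrank ℝ V with hd
  have hb := bb_pos μ
  set b := bb μ with hbdef
  -- compact inside
  obtain ⟨K, hKD, hKc, hK⟩ := hD.exists_isCompact_lt_add hDf (ε := ENNReal.ofReal (μ.real D / 2))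
    (by rw [ne_eq, ENNReal.ofReal_eq_zero]; push Not; exact half_pos hD0)
  have hKf : μ K ≠ ∞ := hKc.measure_lt_top.ne
  have hK' : μ.real D / 2 ≤ μ.real K := by
    have h1 := ENNReal.toReal_mono (ENNReal.add_ne_top.2 ⟨hKf, ENNReal.ofReal_ne_top⟩) hK.le
    rw [ENNReal.toReal_add hKf ENNReal.ofReal_ne_top, ENNReal.toReal_ofReal (half_pos hD0).le] at h1
    change μ.real D ≤ μ.real K + μ.real D / 2 at h1
    linarith
  have hK0 : 0 < μ.real K := by linarith
  -- open outside
  set ε : ℝ := min 1 (τ / (2 * b)) with hε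
  have hε0 : 0 < ε := lt_min one_pos (by positivity)
  obtain ⟨O, hKO, hOo, hOf, hO⟩ := hKc.measurableSet.exists_isOpen_sdiff_lt hKf
    (ε := ENNReal.ofReal (ε * μ.real K))
    (by rw [ne_eq, ENNReal.ofReal_eq_zero]; push Not; exact mul_pos hε0 hK0)
  have hO' : μ.real (O \ K) ≤ ε * μ.real K := by
    have h1 := ENNReal.toReal_mono ENNReal.ofReal_ne_top hO.le
    rwa [ENNReal.toReal_ofReal (mul_pos hε0 hK0).le] at h1
  have hOr : μ.real O ≤ 2 * μ.real D := by
    have h1 : μ.real O ≤ μ.real K + μ.real (O \ K) := by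
      have h4 := measureReal_sdiff_add_inter (μ := μ) (s := O) hKc.measurableSet hOf.ne
      have h5 : μ.real (O ∩ K) ≤ μ.real K := measureReal_mono inter_subset_right hKf
      linarith
    have h2 : μ.real K ≤ μ.real D := measureReal_mono hKD hDf
    have h3 : ε * μ.real K ≤ 1 * μ.real K := mul_le_mul_of_nonneg_right (min_le_left _ _) hK0.le
    linarith
  obtain ⟨h, hh, hth⟩ := hKc.exists_thickening_subset_open hOo hKO
  have hball : ∀ x ∈ K, ball x (h / 2) ⊆ O := fun x hx =>
    (ball_subset_ball (by linarith)).trans ((ball_subset_thickening hx h).trans hth)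
  obtain ⟨A₀, hA₀K, hA₀, hcov⟩ := exists_max_sep μ hh hOf.ne hball
  have hN₀ := le_card μ hh hcov
  set good : V → Prop := fun a => μ.real (ball a (h / 2) \ D) ≤ τ * h ^ d with hgood
  set A := A₀.filter good with hA
  set B := A₀.filter fun a => ¬ good a with hB
  have hcard : A.card + B.card = A₀.card := Finset.card_filter_add_card_filter_not _
  have hhd : 0 < h ^ d := pow_pos hh d
  have hAsep : Sep h A := fun x hx y hy hxy =>
    hA₀ x (Finset.mem_of_mem_filter x hx) y (Finset.mem_of_mem_filter y hy) hxy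
  have hBsep : Sep h B := fun x hx y hy hxy =>
    hA₀ x (Finset.mem_of_mem_filter x hx) y (Finset.mem_of_mem_filter y hy) hxy
  -- few bad
  have hbad : (B.card : ℝ) * (τ * h ^ d) ≤ μ.real (O \ K) := by
    have h1 : μ.real (⋃ x ∈ B, (ball x (h / 2) \ D)) = ∑ x ∈ B, μ.real (ball x (h / 2) \ D) := by
      refine measureReal_biUnion_finset ?_ (fun _ _ => measurableSet_ball.diff hD) ?_
      · intro x hx y hy hxy
        exact (hBsep.disjoint hx hy hxy).mono sdiff_subset sdiff_subset
      · intro x _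
        exact ne_of_lt (lt_of_le_of_lt (measure_mono sdiff_subset) measure_ball_lt_top)
    have h2 : (B.card : ℝ) * (τ * h ^ d) ≤ ∑ x ∈ B, μ.real (ball x (h / 2) \ D) := by
      rw [← nsmul_eq_mul]
      refine Finset.card_nsmul_le_sum _ _ _ fun x hx => ?_
      have := (Finset.mem_filter.1 hx).2
      exact (not_le.1 this).le
    refine h2.trans ?_
    rw [← h1]
    refine measureReal_mono ?_ (ne_of_lt (lt_of_le_of_lt (measure_mono sdiff_subset) hOf))
    refine iUnion₂_subset fun x hx => ?_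
    exact sdiff_subset_sdiff (hball x (hA₀K (Finset.mem_of_mem_filter x hx))) hKD
  have hbad' : (B.card : ℝ) ≤ A₀.card / 2 := by
    have h1 : ε * μ.real K ≤ τ / (2 * b) * (A₀.card * (b * h ^ d)) :=
      mul_le_mul (min_le_right _ _) hN₀ hK0.le (by positivity)
    have h2 : τ / (2 * b) * (A₀.card * (b * h ^ d)) = (A₀.card / 2) * (τ * h ^ d) := by
      field_simp
    have h3 : (B.card : ℝ) * (τ * h ^ d) ≤ (A₀.card / 2) * (τ * h ^ d) := by
      rw [← h2]; exact hbad.trans (hO'.trans h1)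
    exact le_of_mul_le_mul_right h3 (mul_pos hτ hhd)
  have hAcard : (A₀.card : ℝ) / 2 ≤ A.card := by
    have : (A.card : ℝ) + B.card = A₀.card := by exact_mod_cast hcard
    linarith
  refine ⟨h, hh, A, hAsep, fun a ha => (Finset.mem_filter.1 ha).2, ?_, ?_⟩
  · have h1 : (A₀.card : ℝ) / 2 * (b * h ^ d) ≤ A.card * (b * h ^ d) :=
      mul_le_mul_of_nonneg_right hAcard (by positivity)
    have h2 : 4 * b * (A.card * h ^ d) = 4 * (A.card * (b * h ^ d)) := by ring
    rw [h2]
    linarith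
  · have h1 := sep_card_le μ hh hAsep hOf.ne
      (fun x hx => hball x (hA₀K (Finset.mem_of_mem_filter x hx)))
    rw [← hd, ← hbdef] at h1
    have h2 : b * (A.card * h ^ d) = 2 ^ d * (A.card * (b * (h / 2) ^ d)) := by
      rw [div_pow]
      field_simp
    rw [h2, pow_succ]
    have h3 := mul_le_mul_of_nonneg_left (h1.trans hOr) (show (0 : ℝ) ≤ 2 ^ d by positivity)
    linarith

end Pool.Agent.LibLac65
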