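import Mathlib

/-!
# Proximal maps of max-affine functions and the discrete step
-/

set_option autoImplicit false

open scoped RealInnerProductSpace
open Finset

namespace Pool.Agent.LibLac65

variable {V : Type*} [NormedAddCommGroup V] [InnerProductSpace ℝ V]

/-- `p` is a subgradient of `Ψ` at `z` -/
def IsSub (Ψ : V → ℝ) (z p : V) : Prop := ∀ w, Ψ z + ⟪w - z, p⟫ ≤ Ψ w

theorem IsSub.convex (Ψ : V → ℝ) (z : V) : Convex ℝ {p | IsSub Ψ z p} := by
  intro p hp p' hp' a b ha hb hab w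
  have h1 := hp w
  have h2 := hp' w
  rw [inner_add_right, inner_smul_right, inner_smul_right]
  have h3 : a * (Ψ z + ⟪w - z, p⟫) ≤ a * Ψ w := mul_le_mul_of_nonneg_left h1 ha
  have h4 : b * (Ψ z + ⟪w - z, p'⟫) ≤ b * Ψ w := mul_le_mul_of_nonneg_left h2 hb
  have h5 : a * Ψ z + b * Ψ z = Ψ z := by rw [← add_mul, hab, one_mul]
  have h6 : a * Ψ w + b * Ψ w = Ψ w := by rw [← add_mul, hab, one_mul]
  nlinarith

/-- monotonicity of the subdifferential -/
theorem IsSub.mono {Ψ : V → ℝ} {z z' p p' : V} (h : IsSub Ψ z p) (h' : IsSub Ψ z' p') :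
    0 ≤ ⟪z - z', p - p'⟫ := by
  have h1 := h z'
  have h2 := h' z
  have h3 : ⟪z' - z, p⟫ = -⟪z - z', p⟫ := by rw [← inner_neg_left, neg_sub]
  rw [inner_sub_right]
  linarith

theorem IsSub.norm_le {Ψ : V → ℝ} {R : ℝ} (hR : 0 ≤ R) (hL : ∀ x y, |Ψ x - Ψ y| ≤ R * ‖x - y‖) {z p : V}
    (h : IsSub Ψ z p) : ‖p‖ ≤ R := by
  have h1 := h (z + p)
  rw [add_sub_cancel_left, real_inner_self_eq_norm_sq] at h1
  have h2 := (abs_le.1 (hL (z + p) z)).2
  rw [add_sub_cancel_left] at h2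
  by_contra hc
  push Not at hc
  have h3 : 0 < ‖p‖ := lt_of_le_of_lt hR hc
  nlinarith

/-- `z` minimises `w ↦ Ψ w + ‖x - w‖ ^ 2 / 2` -/
def IsProx (Ψ : V → ℝ) (x z : V) : Prop := ∀ w, Ψ z + ‖x - z‖ ^ 2 / 2 ≤ Ψ w + ‖x - w‖ ^ 2 / 2

omit [InnerProductSpace ℝ V] in
theorem exists_prox [ProperSpace V] (Ψ : V → ℝ) (R : ℝ) (hL : ∀ x y, |Ψ x - Ψ y| ≤ R * ‖x - y‖)
    (hc : Continuous Ψ) (x : V) : ∃ z, IsProx Ψ x z := by
  have hcont : Continuous fun w => Ψ w + ‖x - w‖ ^ 2 / 2 := by fun_prop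
  have htend : Filter.Tendsto (fun w => Ψ w + ‖x - w‖ ^ 2 / 2) (Filter.cocompact V) Filter.atTop := by
    have h1 : Filter.Tendsto (fun w => ‖x - w‖) (Filter.cocompact V) Filter.atTop := by
      have h2 : Filter.Tendsto (fun w => dist w x) (Filter.cocompact V) Filter.atTop :=
        tendsto_dist_right_cocompact_atTop x
      refine h2.congr fun w => ?_
      rw [dist_comm, dist_eq_norm]
    have h3 : Filter.Tendsto (fun t : ℝ => Ψ x + t * (t / 2 - R)) Filter.atTop Filter.atTop := by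
      refine Filter.tendsto_atTop_add_const_left _ _ ?_
      refine Filter.Tendsto.atTop_mul_atTop₀ Filter.tendsto_id ?_
      refine Filter.tendsto_atTop_add_const_right _ _ ?_
      exact Filter.tendsto_id.atTop_div_const (by norm_num)
    refine Filter.tendsto_atTop_mono (fun w => ?_) (h3.comp h1)
    have h4 := (abs_le.1 (hL x w)).2
    simp only [Function.comp]
    nlinarith
  obtain ⟨z, hz⟩ := hcont.exists_forall_le htend
  exact ⟨z, fun w => hz w⟩

theorem IsProx.isSub {Ψ : V → ℝ} (hconv : ConvexOn ℝ Set.univ Ψ) {x z : V} (h : IsProx Ψ x z) :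
    IsSub Ψ z (x - z) := by
  intro w
  have key : ∀ t : ℝ, 0 < t → t ≤ 1 → Ψ z + ⟪w - z, x - z⟫ ≤ Ψ w + t * (‖w - z‖ ^ 2 / 2) := by
    intro t ht ht1
    have h1 := h ((1 - t) • z + t • w)
    have h2 := hconv.2 (Set.mem_univ z) (Set.mem_univ w) (sub_nonneg.2 ht1) ht.le (by ring)
    simp only [smul_eq_mul] at h2
    have h3 : x - ((1 - t) • z + t • w) = (x - z) - t • (w - z) := by
      rw [sub_smul, one_smul, smul_sub]; abel
    have h6 := norm_sub_sq_real (x - z) (t • (w - z))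
    rw [inner_smul_right, norm_smul, Real.norm_eq_abs, abs_of_pos ht] at h6
    have h4 : ⟪x - z, w - z⟫ = ⟪w - z, x - z⟫ := real_inner_comm _ _
    rw [h4] at h6
    rw [h3, h6] at h1
    have h5 : t * (Ψ z + ⟪w - z, x - z⟫) ≤ t * (Ψ w + t * (‖w - z‖ ^ 2 / 2)) := by nlinarith
    exact le_of_mul_le_mul_left h5 ht
  by_contra hc
  push Not at hc
  set δ := Ψ z + ⟪w - z, x - z⟫ - Ψ w with hδ
  have hδ0 : 0 < δ := by rw [hδ]; linarith
  set n := ‖w - z‖ ^ 2 / 2 with hn
  have hn0 : 0 ≤ n := by positivity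
  have h1 := key (min 1 (δ / (2 * (n + 1)))) (by positivity) (min_le_left _ _)
  have h2 : min 1 (δ / (2 * (n + 1))) * n ≤ δ / (2 * (n + 1)) * (n + 1) :=
    mul_le_mul (min_le_right _ _) (by linarith) hn0 (by positivity)
  have h3 : δ / (2 * (n + 1)) * (n + 1) = δ / 2 := by field_simp
  linarith

/-- a proximal selection is 1-Lipschitz -/
theorem prox_dist_le {Ψ : V → ℝ} {x x' z z' : V} (h : IsSub Ψ z (x - z)) (h' : IsSub Ψ z' (x' - z')) :
    ‖z - z'‖ ≤ ‖x - x'‖ := by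
  have h1 := h.mono h'
  have h2 : x - z - (x' - z') = (x - x') - (z - z') := by abel
  rw [h2, inner_sub_right, real_inner_self_eq_norm_sq] at h1
  have h3 := real_inner_le_norm (z - z') (x - x')
  by_contra hc
  push Not at hc
  have h4 : 0 < ‖z - z'‖ := lt_of_le_of_lt (norm_nonneg _) hc
  nlinarith

theorem prox_unique {Ψ : V → ℝ} {z z' p : V} (h : IsSub Ψ z p) (h' : IsSub Ψ z' (z + p - z')) : z' = z := by
  have h1 := h.mono h'
  have h2 : p - (z + p - z') = -(z - z') := by abel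
  rw [h2, inner_neg_right, real_inner_self_eq_norm_sq] at h1
  have h3 : ‖z - z'‖ = 0 := by
    have : ‖z - z'‖ ^ 2 ≤ 0 := by linarith
    exact pow_eq_zero_iff (two_ne_zero) |>.1 (le_antisymm this (sq_nonneg _))
  exact (sub_eq_zero.1 (norm_eq_zero.1 h3)).symm

/-! ### max-affine functions -/

section MaxAff

variable {ι : Type*} [Fintype ι] [Nonempty ι]

/-- maximum of the affine functions `x ↦ ⟪x, y k⟫ - v k` -/
noncomputable def Psi (y : ι → V) (v : ι → ℝ) (x : V) : ℝ :=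
  univ.sup' univ_nonempty fun k => ⟪x, y k⟫ - v k

theorem le_Psi (y : ι → V) (v : ι → ℝ) (x : V) (k : ι) : ⟪x, y k⟫ - v k ≤ Psi y v x :=
  Finset.le_sup' (fun k => ⟪x, y k⟫ - v k) (mem_univ k)

theorem Psi_le (y : ι → V) (v : ι → ℝ) (x : V) {c : ℝ} (h : ∀ k, ⟪x, y k⟫ - v k ≤ c) : Psi y v x ≤ c :=
  Finset.sup'_le _ _ fun k _ => h k

theorem exists_active (y : ι → V) (v : ι → ℝ) (x : V) : ∃ k, ⟪x, y k⟫ - v k = Psi y v x := by
  obtain ⟨k, _, hk⟩ := Finset.exists_mem_eq_sup' univ_nonempty fun k => ⟪x, y k⟫ - v k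
  exact ⟨k, hk.symm⟩

theorem isSub_of_active {y : ι → V} {v : ι → ℝ} {z : V} {k : ι} (h : ⟪z, y k⟫ - v k = Psi y v z) :
    IsSub (Psi y v) z (y k) := by
  intro w
  have h1 := le_Psi y v w k
  rw [inner_sub_left]
  linarith

theorem Psi_lip {y : ι → V} {v : ι → ℝ} {R : ℝ} (hR : ∀ k, ‖y k‖ ≤ R) (x x' : V) :
    |Psi y v x - Psi y v x'| ≤ R * ‖x - x'‖ := by
  have key : ∀ x x' : V, Psi y v x - Psi y v x' ≤ R * ‖x - x'‖ := by
    intro x x'
    obtain ⟨k, hk⟩ := exists_active y v x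
    have h1 := le_Psi y v x' k
    have h2 := real_inner_le_norm (x - x') (y k)
    rw [inner_sub_left] at h2
    have h3 : ‖x - x'‖ * ‖y k‖ ≤ ‖x - x'‖ * R := mul_le_mul_of_nonneg_left (hR k) (norm_nonneg _)
    linarith
  rw [abs_le]
  constructor
  · have := key x' x
    rw [norm_sub_rev] at this
    linarith
  · exact key x x'

theorem Psi_convex (y : ι → V) (v : ι → ℝ) : ConvexOn ℝ Set.univ (Psi y v) := by
  refine ⟨convex_univ, fun x _ x' _ a b ha hb hab => ?_⟩
  refine Psi_le _ _ _ fun k => ?_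
  rw [inner_add_left, inner_smul_left, inner_smul_left]
  simp only [conj_trivial, smul_eq_mul]
  have h1 := mul_le_mul_of_nonneg_left (le_Psi y v x k) ha
  have h2 := mul_le_mul_of_nonneg_left (le_Psi y v x' k) hb
  have h3 : v k = a * v k + b * v k := by rw [← add_mul, hab, one_mul]
  linarith

theorem Psi_cont (y : ι → V) (v : ι → ℝ) : Continuous (Psi y v) := by
  unfold Psi
  exact Continuous.finset_sup'_apply _ fun k _ => by fun_prop

theorem Psi_mono {y : ι → V} {v v' : ι → ℝ} (h : ∀ k, v k ≤ v' k) (x : V) : Psi y v' x ≤ Psi y v x :=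
  Psi_le _ _ _ fun k => (by linarith [h k] : ⟪x, y k⟫ - v' k ≤ ⟪x, y k⟫ - v k).trans (le_Psi y v x k)

theorem Psi_le_add {y : ι → V} {v v' : ι → ℝ} {t : ℝ} (h : ∀ k, |v k - v' k| ≤ t) (x : V) :
    Psi y v x ≤ Psi y v' x + t := by
  refine Psi_le _ _ _ fun k => ?_
  have h1 := le_Psi y v' x k
  have h2 := (abs_le.1 (h k)).1
  linarith

theorem Psi_add_const (y : ι → V) (v : ι → ℝ) (c : ℝ) (x : V) :
    Psi y (fun k => v k + c) x = Psi y v x - c := by
  apply le_antisymm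
  · refine Psi_le _ _ _ fun k => ?_
    have := le_Psi y v x k
    linarith
  · obtain ⟨k, hk⟩ := exists_active y v x
    have := le_Psi y (fun k => v k + c) x k
    linarith

variable [ProperSpace V]

theorem exists_proxPsi (y : ι → V) (v : ι → ℝ) (x : V) : ∃ z, IsProx (Psi y v) x z := by
  obtain ⟨k0⟩ := ‹Nonempty ι›
  refine exists_prox (Psi y v) (∑ k, ‖y k‖) (fun a b => Psi_lip (fun k => ?_) a b) (Psi_cont y v) x
  exact Finset.single_le_sum (f := fun k => ‖y k‖) (fun _ _ => norm_nonneg _) (mem_univ k)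

/-- the proximal map -/
noncomputable def JJ (y : ι → V) (v : ι → ℝ) (x : V) : V := (exists_proxPsi y v x).choose

theorem JJ_prox (y : ι → V) (v : ι → ℝ) (x : V) : IsProx (Psi y v) x (JJ y v x) :=
  (exists_proxPsi y v x).choose_spec

theorem JJ_sub (y : ι → V) (v : ι → ℝ) (x : V) : IsSub (Psi y v) (JJ y v x) (x - JJ y v x) :=
  (JJ_prox y v x).isSub (Psi_convex y v)

theorem JJ_eq {y : ι → V} {v : ι → ℝ} {z p : V} (h : IsSub (Psi y v) z p) : JJ y v (z + p) = z :=
  prox_unique h (JJ_sub y v (z + p))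

/-- Moreau envelope -/
noncomputable def gg (y : ι → V) (v : ι → ℝ) (a : V) : ℝ := Psi y v (JJ y v a) + ‖a - JJ y v a‖ ^ 2 / 2

theorem gg_le (y : ι → V) (v : ι → ℝ) (a w : V) : gg y v a ≤ Psi y v w + ‖a - w‖ ^ 2 / 2 := JJ_prox y v a w

theorem gg_mono {y : ι → V} {v v' : ι → ℝ} (h : ∀ k, v k ≤ v' k) (a : V) : gg y v' a ≤ gg y v a :=
  (gg_le y v' a (JJ y v a)).trans (by
    have := Psi_mono (y := y) h (JJ y v a)
    unfold gg
    linarith)

theorem gg_lower (y : ι → V) (v : ι → ℝ) (a : V) (k : ι) :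
    ⟪a, y k⟫ - ‖y k‖ ^ 2 / 2 - v k ≤ gg y v a := by
  unfold gg
  have h1 := le_Psi y v (JJ y v a) k
  have h2 : 0 ≤ ‖a - JJ y v a - y k‖ ^ 2 := sq_nonneg _
  rw [norm_sub_sq_real, inner_sub_left] at h2
  linarith

theorem gg_lip {y : ι → V} {v v' : ι → ℝ} {t : ℝ} (h : ∀ k, |v k - v' k| ≤ t) (a : V) :
    |gg y v a - gg y v' a| ≤ t := by
  have key : ∀ v v' : ι → ℝ, (∀ k, |v k - v' k| ≤ t) → gg y v a - gg y v' a ≤ t := by
    intro v v' h
    have h1 := gg_le y v a (JJ y v' a)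
    have h2 := Psi_le_add (y := y) h (JJ y v' a)
    have h3 : gg y v' a = Psi y v' (JJ y v' a) + ‖a - JJ y v' a‖ ^ 2 / 2 := rfl
    linarith
  rw [abs_le]
  constructor
  · have := key v' v (fun k => by rw [abs_sub_comm]; exact h k)
    linarith
  · exact key v v' h

theorem gg_add_const (y : ι → V) (v : ι → ℝ) (c : ℝ) (a : V) :
    gg y (fun k => v k + c) a = gg y v a - c := by
  apply le_antisymm
  · have h1 := gg_le y (fun k => v k + c) a (JJ y v a)
    rw [Psi_add_const] at h1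
    unfold gg at h1 ⊢
    linarith
  · have h1 := gg_le y v a (JJ y (fun k => v k + c) a)
    have h2 := Psi_add_const y v c (JJ y (fun k => v k + c) a)
    unfold gg at h1 ⊢
    linarith

/-- the functional -/
noncomputable def FF {I : Type*} [Fintype I] (a : I → V) (y : ι → V) (κ : ℝ) (v : ι → ℝ) : ℝ :=
  ∑ i, gg y v (a i) + κ * ∑ k, v k

theorem FF_cont {I : Type*} [Fintype I] (a : I → V) (y : ι → V) (κ : ℝ) : Continuous (FF a y κ) := by
  have h1 : ∀ b : V, Continuous fun v : ι → ℝ => gg y v b := by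
    intro b
    have : LipschitzWith 1 fun v : ι → ℝ => gg y v b := by
      refine LipschitzWith.of_dist_le_mul fun v v' => ?_
      rw [NNReal.coe_one, one_mul, Real.dist_eq]
      exact gg_lip (fun k => by rw [← Real.dist_eq]; exact dist_le_pi_dist v v' k) b
    exact this.continuous
  unfold FF
  exact (continuous_finsetSum _ fun i _ => h1 (a i)).add
    (continuous_const.mul (continuous_finsetSum _ fun k _ => continuous_apply k))

theorem FF_add_const {I : Type*} [Fintype I] (a : I → V) (y : ι → V) {κ : ℝ}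
    (hκ : κ * Fintype.card ι = Fintype.card I) (v : ι → ℝ) (c : ℝ) :
    FF a y κ (fun k => v k + c) = FF a y κ v := by
  unfold FF
  simp only [gg_add_const]
  rw [Finset.sum_sub_distrib, Finset.sum_add_distrib]
  simp only [Finset.sum_const, Finset.card_univ, nsmul_eq_mul]
  have : κ * ((Fintype.card ι : ℝ) * c) = (Fintype.card I : ℝ) * c := by rw [← mul_assoc, hκ]
  rw [mul_add, this]
  ring

theorem exists_min {I : Type*} [Fintype I] (a : I → V) (y : ι → V) {κ : ℝ} (hκ0 : 0 < κ)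
    (hκ : κ * Fintype.card ι = Fintype.card I) : ∃ v, ∀ v', FF a y κ v ≤ FF a y κ v' := by
  set C : ℝ := ∑ k, |∑ i, (⟪a i, y k⟫ - ‖y k‖ ^ 2 / 2)| with hC
  set M : ℝ := max 0 ((FF a y κ 0 + C) / κ) with hM
  have hcomp : IsCompact (Set.univ.pi fun _ : ι => Set.Icc (0 : ℝ) M) := isCompact_univ_pi fun _ => isCompact_Icc
  have hne : (Set.univ.pi fun _ : ι => Set.Icc (0 : ℝ) M).Nonempty :=
    ⟨0, fun k _ => ⟨le_rfl, le_max_left _ _⟩⟩
  obtain ⟨v, hv, hmin⟩ := hcomp.exists_isMinOn hne (FF_cont a y κ).continuousOn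
  refine ⟨v, fun v' => ?_⟩
  obtain ⟨k0, _, hk0⟩ := Finset.exists_mem_eq_inf' (univ_nonempty (α := ι)) v'
  have hk0' : ∀ k, v' k0 ≤ v' k := by
    intro k
    rw [← hk0]
    exact Finset.inf'_le _ (mem_univ k)
  set u : ι → ℝ := fun k => v' k + (-(v' k0)) with hu
  have hFu : FF a y κ u = FF a y κ v' := FF_add_const a y hκ v' _
  have hu0 : ∀ k, 0 ≤ u k := fun k => by simp only [hu]; linarith [hk0' k]
  have huk0 : u k0 = 0 := by simp only [hu]; ring
  rw [← hFu]
  by_cases hb : ∀ k, u k ≤ M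
  · exact isMinOn_iff.1 hmin u fun k _ => ⟨hu0 k, hb k⟩
  · push Not at hb
    obtain ⟨k1, hk1⟩ := hb
    have h0 : FF a y κ v ≤ FF a y κ 0 := isMinOn_iff.1 hmin 0 fun k _ => ⟨le_rfl, le_max_left _ _⟩
    refine h0.trans ?_
    have h1 : ∑ i, (⟪a i, y k0⟫ - ‖y k0‖ ^ 2 / 2) ≤ ∑ i, gg y u (a i) := by
      refine Finset.sum_le_sum fun i _ => ?_
      have := gg_lower y u (a i) k0
      rw [huk0, sub_zero] at this
      exact this
    have h2 : -C ≤ ∑ i, (⟪a i, y k0⟫ - ‖y k0‖ ^ 2 / 2) := by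
      have h3 : |∑ i, (⟪a i, y k0⟫ - ‖y k0‖ ^ 2 / 2)| ≤ C :=
        Finset.single_le_sum (f := fun k => |∑ i, (⟪a i, y k⟫ - ‖y k‖ ^ 2 / 2)|)
          (fun _ _ => abs_nonneg _) (mem_univ k0)
      exact neg_le_of_abs_le h3
    have h3 : M ≤ ∑ k, u k := hk1.le.trans (Finset.single_le_sum (fun k _ => hu0 k) (mem_univ k1))
    have h4 : (FF a y κ 0 + C) / κ ≤ M := le_max_right _ _
    have h5 : FF a y κ 0 + C ≤ κ * ∑ k, u k := by
      rw [div_le_iff₀ hκ0] at h4
      calc FF a y κ 0 + C ≤ M * κ := h4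
        _ ≤ (∑ k, u k) * κ := mul_le_mul_of_nonneg_right h3 hκ0.le
        _ = κ * ∑ k, u k := mul_comm _ _
    change FF a y κ 0 ≤ ∑ i, gg y u (a i) + κ * ∑ k, u k
    linarith

/-- at a minimiser every proximal point has two active indices -/
theorem two_active {I : Type*} [Fintype I] (a : I → V) (y : ι → V) {κ : ℝ} (hκ1 : κ < 1) {v : ι → ℝ}
    (hmin : ∀ v', FF a y κ v ≤ FF a y κ v') (i : I) :
    ∃ k k', k ≠ k' ∧ ⟪JJ y v (a i), y k⟫ - v k = Psi y v (JJ y v (a i)) ∧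
      ⟪JJ y v (a i), y k'⟫ - v k' = Psi y v (JJ y v (a i)) := by
  classical
  set z := JJ y v (a i) with hz
  obtain ⟨k0, hk0⟩ := exists_active y v z
  by_contra hcon
  push Not at hcon
  have hlt : ∀ k, k ≠ k0 → ⟪z, y k⟫ - v k < Psi y v z := by
    intro k hk
    refine lt_of_le_of_ne (le_Psi y v z k) fun h => ?_
    exact hcon k k0 hk h hk0
  obtain ⟨δ, hδ, hδ'⟩ : ∃ δ : ℝ, 0 < δ ∧ ∀ k, k ≠ k0 → ⟪z, y k⟫ - v k ≤ Psi y v z - δ := by
    by_cases hne : (univ.erase k0).Nonempty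
    · obtain ⟨k1, hk1, hk1'⟩ := Finset.exists_max_image (univ.erase k0) (fun k => ⟪z, y k⟫ - v k) hne
      refine ⟨Psi y v z - (⟪z, y k1⟫ - v k1), sub_pos.2 (hlt k1 (Finset.ne_of_mem_erase hk1)), fun k hk => ?_⟩
      have := hk1' k (Finset.mem_erase.2 ⟨hk, mem_univ k⟩)
      linarith
    · refine ⟨1, one_pos, fun k hk => ?_⟩
      exact absurd ⟨k, Finset.mem_erase.2 ⟨hk, mem_univ k⟩⟩ hne
  set v' : ι → ℝ := Function.update v k0 (v k0 + δ) with hv'
  have hvk : ∀ k, k ≠ k0 → v' k = v k := fun k hk => by rw [hv', Function.update_of_ne hk]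
  have hvk0 : v' k0 = v k0 + δ := by rw [hv', Function.update_self]
  have hle : ∀ k, v k ≤ v' k := by
    intro k
    by_cases hk : k = k0
    · subst hk
      rw [hvk0]; linarith
    · rw [hvk k hk]
  have hPsi : Psi y v' z ≤ Psi y v z - δ := by
    refine Psi_le _ _ _ fun k => ?_
    by_cases hk : k = k0
    · subst hk
      rw [hvk0]; linarith
    · rw [hvk k hk]
      exact hδ' k hk
  have hgi : gg y v' (a i) ≤ gg y v (a i) - δ := by
    have h1 := gg_le y v' (a i) z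
    have h2 : gg y v (a i) = Psi y v z + ‖a i - z‖ ^ 2 / 2 := rfl
    linarith
  have hsum : ∑ j, gg y v' (a j) ≤ ∑ j, gg y v (a j) - δ := by
    rw [← Finset.add_sum_erase _ _ (mem_univ i), ← Finset.add_sum_erase univ (fun j => gg y v (a j)) (mem_univ i)]
    have : ∑ j ∈ univ.erase i, gg y v' (a j) ≤ ∑ j ∈ univ.erase i, gg y v (a j) :=
      Finset.sum_le_sum fun j _ => gg_mono hle (a j)
    linarith
  have hsumv : ∑ k, v' k = ∑ k, v k + δ := by
    rw [← Finset.add_sum_erase _ _ (mem_univ k0), ← Finset.add_sum_erase univ v (mem_univ k0), hvk0]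
    have : ∑ k ∈ univ.erase k0, v' k = ∑ k ∈ univ.erase k0, v k :=
      Finset.sum_congr rfl fun k hk => hvk k (Finset.ne_of_mem_erase hk)
    rw [this]; ring
  have h1 := hmin v'
  unfold FF at h1
  rw [hsumv] at h1
  nlinarith

end MaxAff

/-- **The discrete step.** -/
theorem discrete_step [ProperSpace V] {I ι : Type*} [Fintype I] [Fintype ι] (a : I → V) (y : ι → V)
    (hcard : Fintype.card I < Fintype.card ι) {R s : ℝ} (hR : ∀ k, ‖y k‖ ≤ R) (hs : 0 < s)
    (hsep : ∀ k k', k ≠ k' → s ≤ ‖y k - y k'‖) :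
    ∃ T : V → V, LipschitzWith 1 T ∧ Function.Surjective T ∧ (∀ x, dist (T x) x ≤ R) ∧
      ∀ i, ∃ a', dist a' (a i) = s / 2 ∧ T a' = T (a i) := by
  have hne : Nonempty ι := Fintype.card_pos_iff.1 (lt_of_le_of_lt (Nat.zero_le _) hcard)
  have hR0 : 0 ≤ R := by
    obtain ⟨k⟩ := hne
    exact (norm_nonneg _).trans (hR k)
  have general : ∀ v : ι → ℝ, LipschitzWith 1 (JJ y v) ∧ Function.Surjective (JJ y v) ∧
      ∀ x, dist (JJ y v x) x ≤ R := by
    intro v
    refine ⟨?_, ?_, ?_⟩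
    · refine LipschitzWith.of_dist_le_mul fun x x' => ?_
      rw [NNReal.coe_one, one_mul, dist_eq_norm, dist_eq_norm]
      exact prox_dist_le (JJ_sub y v x) (JJ_sub y v x')
    · intro z
      obtain ⟨k, hk⟩ := exists_active y v z
      exact ⟨z + y k, JJ_eq (isSub_of_active hk)⟩
    · intro x
      rw [dist_comm, dist_eq_norm]
      exact (JJ_sub y v x).norm_le hR0 (Psi_lip hR)
  rcases isEmpty_or_nonempty I with hI | hI
  · obtain ⟨h1, h2, h3⟩ := general 0
    exact ⟨JJ y 0, h1, h2, h3, fun i => (hI.false i).elim⟩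
  · have hι : (0 : ℝ) < Fintype.card ι := by exact_mod_cast lt_of_le_of_lt (Nat.zero_le _) hcard
    have hI0 : (0 : ℝ) < Fintype.card I := by exact_mod_cast Fintype.card_pos
    set κ : ℝ := Fintype.card I / Fintype.card ι with hκ
    have hκ0 : 0 < κ := div_pos hI0 hι
    have hκ1 : κ < 1 := by
      rw [hκ, div_lt_one hι]
      exact_mod_cast hcard
    have hκc : κ * Fintype.card ι = Fintype.card I := by
      rw [hκ, div_mul_cancel₀ _ hι.ne']
    obtain ⟨v, hv⟩ := exists_min a y hκ0 hκc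
    obtain ⟨h1, h2, h3⟩ := general v
    refine ⟨JJ y v, h1, h2, h3, fun i => ?_⟩
    obtain ⟨k, k', hkk, hk, hk'⟩ := two_active a y hκ1 hv i
    set z := JJ y v (a i) with hz
    have hp : IsSub (Psi y v) z (a i - z) := JJ_sub y v (a i)
    -- one of the two active points is far from `a i - z`
    obtain ⟨l, hl, hfar⟩ : ∃ l, ⟪z, y l⟫ - v l = Psi y v z ∧ s / 2 ≤ ‖y l - (a i - z)‖ := by
      by_contra hcon
      push Not at hcon
      have e1 := hcon k hk
      have e2 := hcon k' hk'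
      have e3 := hsep k k' hkk
      have e4 : ‖y k - y k'‖ ≤ ‖y k - (a i - z)‖ + ‖y k' - (a i - z)‖ := by
        have : y k - y k' = (y k - (a i - z)) - (y k' - (a i - z)) := by abel
        rw [this]
        exact norm_sub_le _ _
      linarith
    have hn0 : 0 < ‖y l - (a i - z)‖ := lt_of_lt_of_le (by linarith) hfar
    set t : ℝ := (s / 2) / ‖y l - (a i - z)‖ with ht
    have ht0 : 0 ≤ t := by positivity
    have ht1 : t ≤ 1 := by
      rw [ht, div_le_one hn0]
      exact hfar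
    set p' : V := (1 - t) • (a i - z) + t • y l with hp'
    have hsub : IsSub (Psi y v) z p' :=
      IsSub.convex (Psi y v) z hp (isSub_of_active hl) (sub_nonneg.2 ht1) ht0 (by ring)
    refine ⟨z + p', ?_, ?_⟩
    · rw [dist_eq_norm]
      have : z + p' - a i = t • (y l - (a i - z)) := by
        rw [hp']
        module
      rw [this, norm_smul, Real.norm_eq_abs, abs_of_nonneg ht0, ht, div_mul_cancel₀ _ hn0.ne']
    · exact JJ_eq hsub

end Pool.Agent.LibLac65
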