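import Pool.Agent.LibLac65.Meas

/-!
# One step
-/

set_option autoImplicit false

open MeasureTheory MeasureTheory.Measure Metric Module Set
open scoped ENNReal

namespace Pool.Agent.LibLac65

variable {V : Type*} [NormedAddCommGroup V] [InnerProductSpace ℝ V] [FiniteDimensional ℝ V]
  [MeasurableSpace V] [BorelSpace V]

variable (μ : Measure V) [μ.IsAddHaarMeasure]

/-- two balls with centres at distance `ρ` -/
theorem two_balls {a a' : V} {ρ : ℝ} (hρ : 0 < ρ) (h : dist a' a = ρ) :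
    bb μ * ρ ^ finrank ℝ V + bb μ * (ρ / 2) ^ finrank ℝ V ≤ μ.real (ball a ρ ∪ ball a' ρ) := by
  set c : V := a' + (1 / 2 : ℝ) • (a' - a) with hc
  have hn : ‖a' - a‖ = ρ := by rw [← dist_eq_norm, h]
  have h1 : dist c a' = ρ / 2 := by
    rw [hc, dist_eq_norm, add_sub_cancel_left, norm_smul, hn, Real.norm_eq_abs, abs_of_pos (by norm_num)]
    ring
  have h2 : dist c a = ρ + ρ / 2 := by
    have : c - a = (3 / 2 : ℝ) • (a' - a) := by rw [hc]; module
    rw [dist_eq_norm, this, norm_smul, hn, Real.norm_eq_abs, abs_of_pos (by norm_num)]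
    ring
  have hsub : ball c (ρ / 2) ⊆ ball a' ρ := ball_subset_ball' (by rw [h1]; linarith)
  have hdisj : Disjoint (ball a ρ) (ball c (ρ / 2)) := ball_disjoint_ball (by rw [dist_comm, h2])
  rw [← ball_real μ a hρ, ← ball_real μ c (half_pos hρ),
    ← measureReal_union hdisj measurableSet_ball measure_ball_lt_top.ne measure_ball_lt_top.ne]
  refine measureReal_mono (union_subset_union_right _ hsub) ?_
  exact ne_of_lt (measure_union_lt_top measure_ball_lt_top measure_ball_lt_top)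

/-- **One step.** -/
theorem one_step (hd : 0 < finrank ℝ V) {D : Set V} (hD : MeasurableSet D) (hDf : μ D ≠ ∞) {R : ℝ}
    (hR : 0 ≤ R) (hRD : 2 ^ (finrank ℝ V + 1) * μ.real D ≤ bb μ * R ^ finrank ℝ V) :
    ∃ T : V → V, LipschitzWith 1 T ∧ Function.Surjective T ∧ (∀ x, dist (T x) x ≤ R) ∧
      μ.real (T '' D) ≤ (1 - (1 / 8) ^ finrank ℝ V / 8) * μ.real D := by
  classical
  have hb := bb_pos μ
  rcases (measureReal_nonneg (μ := μ) (s := D)).eq_or_lt with hD0 | hD0
  · refine ⟨id, LipschitzWith.id, Function.surjective_id, fun x => ?_, ?_⟩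
    · rw [id, dist_self]; exact hR
    · rw [image_id, ← hD0, mul_zero]
  set b := bb μ with hbdef
  set τ : ℝ := b * (1 / 8) ^ finrank ℝ V / 2 with hτ
  have hτ0 : 0 < τ := by positivity
  obtain ⟨h, hh, A, hA, hgood, hlow, hup⟩ := exists_good μ hD hDf hD0 hτ0
  set d := finrank ℝ V with hddef
  rw [← hbdef] at hlow hup
  have hhd : 0 < h ^ d := pow_pos hh d
  have hN0 : 0 < (A.card : ℝ) := by
    rcases (Nat.cast_nonneg (α := ℝ) A.card).eq_or_lt with h0 | h0
    · rw [← h0, zero_mul, mul_zero] at hlow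
      linarith
    · exact h0
  have hN1 : (1 : ℝ) ≤ A.card := by exact_mod_cast Nat.one_le_iff_ne_zero.2 (by
      intro h0; rw [h0] at hN0; simp at hN0)
  have hNR : A.card * h ^ d ≤ R ^ d := le_of_mul_le_mul_left (hup.trans hRD) hb
  -- the target points
  have hs : 0 < h / 2 := half_pos hh
  obtain ⟨Y, hYK, hY, hYcov⟩ := exists_max_sep μ hs (K := closedBall 0 R) (O := closedBall 0 (R + h))
    (isCompact_closedBall _ _).measure_lt_top.ne (fun x hx => by
      intro z hz
      rw [mem_closedBall] at hx ⊢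
      rw [mem_ball] at hz
      have := dist_triangle z x 0
      linarith)
  have hYcard := le_card μ hs hYcov
  rw [closedBall_real μ 0 hR, ← hddef, ← hbdef] at hYcard
  have hcard : A.card < Y.card := by
    have h1 : b * R ^ d ≤ b * (Y.card * (h / 2) ^ d) := by linarith
    have h2 : R ^ d ≤ Y.card * (h / 2) ^ d := le_of_mul_le_mul_left h1 hb
    have h3 : A.card * h ^ d ≤ Y.card * (h / 2) ^ d := hNR.trans h2
    rw [div_pow] at h3
    have h4 : (Y.card : ℝ) * (h ^ d / 2 ^ d) = (Y.card / 2 ^ d) * h ^ d := by ring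
    rw [h4] at h3
    have h5 := le_of_mul_le_mul_right h3 hhd
    rw [le_div_iff₀ (by positivity)] at h5
    have h6 : (2 : ℝ) ≤ 2 ^ d := by
      calc (2 : ℝ) = 2 ^ 1 := (pow_one 2).symm
        _ ≤ 2 ^ d := pow_le_pow_right₀ (by norm_num) hd
    have h7 : (A.card : ℝ) < Y.card := by nlinarith
    exact_mod_cast h7
  obtain ⟨T, hT1, hT2, hT3, hT4⟩ := discrete_step (fun i : A => (i : V)) (fun k : Y => (k : V))
    (by simpa using hcard) (R := R) (s := h / 2)
    (fun k => by simpa using hYK k.2) hs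
    (fun k k' hkk => by
      rw [← dist_eq_norm]
      exact hY k k.2 k' k'.2 fun e => hkk (Subtype.ext e))
  refine ⟨T, hT1, hT2, hT3, ?_⟩
  have hT4' : ∀ a : V, ∃ a' : V, a ∈ A → dist a' a = h / 4 ∧ T a' = T a := by
    intro a
    by_cases ha : a ∈ A
    · obtain ⟨a', h1, h2⟩ := hT4 ⟨a, ha⟩
      exact ⟨a', fun _ => ⟨by rw [h1]; ring, h2⟩⟩
    · exact ⟨a, fun h => absurd h ha⟩
  choose a' ha' using hT4'
  set ρ : ℝ := h / 4 with hρ
  have hρ0 : 0 < ρ := by positivity
  set W : V → Set V := fun a => ball a ρ ∪ ball (a' a) ρ with hW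
  have hWm : ∀ a, MeasurableSet (W a) := fun a => measurableSet_ball.union measurableSet_ball
  have hWsub : ∀ a ∈ A, W a ⊆ ball a (h / 2) := by
    intro a ha
    refine union_subset (ball_subset_ball (by rw [hρ]; linarith)) (ball_subset_ball' ?_)
    rw [(ha' a ha).1, hρ]
    linarith
  have hWf : ∀ a, μ (W a) ≠ ∞ := fun a =>
    ne_of_lt (measure_union_lt_top measure_ball_lt_top measure_ball_lt_top)
  have hWdisj : (A : Set V).PairwiseDisjoint W := fun x hx y hy hxy =>
    (hA.disjoint hx hy hxy).mono (hWsub x hx) (hWsub y hy)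
  have hTW : ∀ a ∈ A, T '' W a ⊆ ball (T a) ρ := by
    rintro a ha _ ⟨x, hx, rfl⟩
    rw [mem_ball]
    rcases hx with hx | hx
    · have := hT1.dist_le_mul x a
      rw [NNReal.coe_one, one_mul] at this
      exact lt_of_le_of_lt this hx
    · have := hT1.dist_le_mul x (a' a)
      rw [NNReal.coe_one, one_mul, (ha' a ha).2] at this
      exact lt_of_le_of_lt this hx
  -- lower bound for `μ (D ∩ W a)`
  have hDW : ∀ a ∈ A, b * ρ ^ d + b * (ρ / 2) ^ d - τ * h ^ d ≤ μ.real (D ∩ W a) := by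
    intro a ha
    have h1 := two_balls μ hρ0 (ha' a ha).1
    have h2 : μ.real (W a \ D) ≤ τ * h ^ d := by
      refine le_trans (measureReal_mono ?_ ?_) (hgood a ha)
      · exact sdiff_subset_sdiff_left (hWsub a ha)
      · exact ne_of_lt (lt_of_le_of_lt (measure_mono sdiff_subset) measure_ball_lt_top)
    have h3 := measureReal_sdiff_add_inter (μ := μ) (s := W a) hD (hWf a)
    rw [inter_comm] at h3
    have h4 : b * ρ ^ d + b * (ρ / 2) ^ d ≤ μ.real (W a) := h1
    linarith
  set U : Set V := ⋃ a ∈ A, W a with hU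
  have hUm : MeasurableSet U := Finset.measurableSet_biUnion _ fun a _ => hWm a
  have hDU : (A.card : ℝ) * (b * ρ ^ d + b * (ρ / 2) ^ d - τ * h ^ d) ≤ μ.real (D ∩ U) := by
    have h1 : D ∩ U = ⋃ a ∈ A, (D ∩ W a) := by rw [hU, inter_iUnion₂]
    have h2 : μ.real (⋃ a ∈ A, (D ∩ W a)) = ∑ a ∈ A, μ.real (D ∩ W a) := by
      refine measureReal_biUnion_finset ?_ (fun a _ => hD.inter (hWm a)) ?_
      · exact fun x hx y hy hxy => (hWdisj hx hy hxy).mono inter_subset_right inter_subset_right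
      · exact fun a _ => ne_of_lt (lt_of_le_of_lt (measure_mono inter_subset_left) hDf.lt_top)
    rw [h1, h2, ← nsmul_eq_mul]
    exact Finset.card_nsmul_le_sum _ _ _ hDW
  have hsplit := measureReal_sdiff_add_inter (μ := μ) (s := D) hUm hDf
  have hTU : μ.real (T '' U) ≤ A.card * (b * ρ ^ d) := by
    have h1 : T '' U ⊆ ⋃ a ∈ A, ball (T a) ρ := by
      rw [hU, image_iUnion₂]
      exact iUnion₂_mono hTW
    have hfin : μ (⋃ a ∈ A, ball (T a) ρ) ≠ ∞ := by
      refine ne_of_lt (lt_of_le_of_lt (measure_biUnion_finset_le _ _) ?_)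
      exact ENNReal.sum_lt_top.2 fun _ _ => measure_ball_lt_top
    calc μ.real (T '' U) ≤ μ.real (⋃ a ∈ A, ball (T a) ρ) := measureReal_mono h1 hfin
      _ ≤ ∑ a ∈ A, μ.real (ball (T a) ρ) := measureReal_biUnion_finset_le _ _
      _ = A.card * (b * ρ ^ d) := by
          rw [Finset.sum_congr rfl fun a _ => ball_real μ (T a) hρ0, Finset.sum_const, nsmul_eq_mul]
  have hfinal : μ.real (T '' D) ≤ μ.real (D \ U) + A.card * (b * ρ ^ d) := by
    have h1 : T '' D ⊆ T '' (D \ U) ∪ T '' U := by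
      rw [← image_union, sdiff_union_self]
      exact image_mono subset_union_left
    have hf1 : μ (D \ U) ≠ ∞ := ne_of_lt (lt_of_le_of_lt (measure_mono sdiff_subset) hDf.lt_top)
    have hUf : μ U ≠ ∞ := by
      refine ne_of_lt (lt_of_le_of_lt (measure_biUnion_finset_le _ _) ?_)
      exact ENNReal.sum_lt_top.2 fun a _ => (hWf a).lt_top
    have hf2 : μ (T '' (D \ U)) ≠ ∞ := ne_of_lt (lt_of_le_of_lt (measure_image_le μ hT1 _) hf1.lt_top)
    have hf3 : μ (T '' U) ≠ ∞ := ne_of_lt (lt_of_le_of_lt (measure_image_le μ hT1 _) hUf.lt_top)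
    calc μ.real (T '' D) ≤ μ.real (T '' (D \ U) ∪ T '' U) :=
          measureReal_mono h1 (ne_of_lt (measure_union_lt_top hf2.lt_top hf3.lt_top))
      _ ≤ μ.real (T '' (D \ U)) + μ.real (T '' U) := measureReal_union_le _ _
      _ ≤ μ.real (D \ U) + A.card * (b * ρ ^ d) := add_le_add (measureReal_image_le μ hT1 hf1) hTU
  have e1 : (ρ / 2) ^ d = (1 / 8) ^ d * h ^ d := by
    rw [← mul_pow, hρ]
    congr 1
    ring
  rw [e1] at hDU
  have e2 : τ * h ^ d = b * (1 / 8) ^ d / 2 * h ^ d := rfl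
  have e3 : μ.real (T '' D) ≤ μ.real D - A.card * (b * ((1 / 8) ^ d * h ^ d) - τ * h ^ d) := by
    have : (A.card : ℝ) * (b * ρ ^ d + b * ((1 / 8) ^ d * h ^ d) - τ * h ^ d) =
      A.card * (b * ρ ^ d) + A.card * (b * ((1 / 8) ^ d * h ^ d) - τ * h ^ d) := by ring
    linarith
  have e4 : (A.card : ℝ) * (b * ((1 / 8) ^ d * h ^ d) - τ * h ^ d) =
      (1 / 8) ^ d / 8 * (4 * b * (A.card * h ^ d)) := by
    rw [e2]; ring
  rw [e4] at e3
  have e5 : (1 / 8 : ℝ) ^ d / 8 * μ.real D ≤ (1 / 8) ^ d / 8 * (4 * b * (A.card * h ^ d)) :=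
    mul_le_mul_of_nonneg_left hlow (by positivity)
  linarith

end Pool.Agent.LibLac65
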